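import Pool.Agent.T2h14.FD.T_LIFT
import Pool.Agent.T2h14.FD.T_CN
import Pool.Agent.T2h14.FD.T_MAIN
import Pool.Agent.T2h11.FD.Base
import Pool.Agent.T2h11.FD.Eval
import Pool.Agent.T2h11.FD.Pow
import Pool.Agent.T2h25.FD.FLD
import Pool.Agent.T2h25.FD.PRE
import Pool.Agent.T2h46.FD.NEW
import Pool.Agent.T2h69.FD.UNIQ_SUR
import Pool.Agent.T2h85.FD.Reg
import Pool.Agent.T2h85.FD.WeiCder
import Pool.Agent.T3h91.FD.Des
import Pool.Agent.T3h91.FD.FraFrb
import Pool.Agent.T5h32.FD.CMP
import Pool.Agent.T5h55.FD.LIMBIJ
import Pool.Agent.T5h55.FD.MIN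
import Pool.Agent.T5h55.FD.STEP

/-!
# Decompleting the Frobenius of a complete local ring in characteristic `p`

The full positive answer to the question: every Noetherian complete local ring `A` of characteristic
`p` has a coefficient field `k` such that for `A' = k^(1/p^∞) ⊗ A` (tensor product over `k`) the
Frobenius of the completion of `A'` is isomorphic to the map induced by a finite `A'`-algebra.

The main step is a normal form (`Pool.Agent.T2h14.FD.CN`): finitely many power series in
`k⟦X_1, …, X_n⟧` are, up to an automorphism of the ring (moving `k`), defined over a subfield `L` of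
`k` which is finite over `k ^ p`. So there is a presentation of `A` with equations over `L`, and for
them the Frobenius of the completion of `A'` is given by equations over `A'`.

Contributions: helper11, helper25, helper32, helper46, helper55, helper69, helper85, helper91.
-/

set_option autoImplicit false

open IsLocalRing

namespace Pool.Agent.Results.MP_8ea7ca_ag.FrobeniusDecompletes

open Pool.Agent.T2h14.FD

theorem all_lift : LIFT :=
  t_LIFT Pool.Agent.T2h25.FD.t_SMO t_EVAL (t_COMP t_POW t_CLO) (t_COMM t_POW) t_CLO t_POW

theorem all_new : NEW :=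
  t_NEW (t_STEP all_lift) t_LIM t_BIJ (t_COMP t_POW t_CLO)

/-- The normal form: finitely many power series are defined over a small field. -/
theorem all_cn : CN :=
  t_CN Pool.Agent.T2h25.FD.t_DER t_BASE (t_REG (t_COMM t_POW) t_EVAL t_UNIQ) (t_WEI (t_COMM t_POW))
    t_CDER t_EXT t_MIN all_new

theorem all_pre : PRE :=
  Pool.Agent.T2h25.FD.t_PRE all_cn Pool.Agent.T2h25.FD.t_SMO t_EVAL t_SUR t_POW t_UNIQ

theorem all_main : MAIN :=
  t_MAIN all_pre Pool.Agent.T3h91.FD.t_FRB (t_CMP t_EVAL t_UNIQ t_SUR t_POW t_CLO)
    (Pool.Agent.T3h91.FD.t_DES Pool.Agent.T3h91.FD.t_FRA)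

/-- **Main theorem.** Let `A` be a Noetherian local ring of prime characteristic `p` which is
complete (for its maximal ideal). Then `A` has a coefficient field `σ` such that the Frobenius of the
completion of `A' = k^(1/p^∞) ⊗ A`, the tensor product over the coefficient field `k`, is isomorphic
to the map given by a finite `A'`-algebra. -/
theorem result (p : ℕ) [Fact p.Prime] (A : Type) [CommRing A] [IsLocalRing A] [IsNoetherianRing A]
    [IsAdicComplete (maximalIdeal A) A] [CharP A p] :
    haveI : CharP (ResidueField A) p := charP_residue p A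
    ∃ σ : ResidueField A →+* A, IsCoefficientField σ ∧ Decompletes p σ :=
  haveI : CharP (ResidueField A) p := charP_residue p A
  all_main p A

end Pool.Agent.Results.MP_8ea7ca_ag.FrobeniusDecompletes
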